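import Pool.Agent.H333R2.Col.Pairs

/-!
# COLOURING is polynomial on (diamond, P_1 + P_2 + P_3)-free graphs
-/

namespace Pool.Agent.Results.MP_b6a47d_lc.DiamondP1P2P3

open Pool.Agent.Helper856.PairStmt Pool.Agent.H333R2.Col

/-- Q1, positive answer: COLOURING (graph and number of colours in the input) can be solved in
polynomial time on the graphs without induced diamond and without induced `P_1 + P_2 + P_3`. -/
theorem result :
    ColouringInPOn (fun _ G => ¬ Diamond.IsIndContained G ∧ ¬ P1_P2_P3.IsIndContained G) :=
  colouringInPOn_of_bounded ((Pool.Agent.Results.MP_849b2e_co.Classification.result _ _ _ _).2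
    (Or.inl (Or.inr (Or.inr (Or.inr (Or.inr (Or.inl ⟨SimpleGraph.IsIndContained.refl _,
      Or.inr (Or.inr (SimpleGraph.IsIndContained.refl _))⟩)))))))

end Pool.Agent.Results.MP_b6a47d_lc.DiamondP1P2P3
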